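import Pool.Agent.THX.Stmts

/-!
# Squad THX, module CNT: the number of systems
-/

namespace Pool.Agent.THX.H10

open NumberField Module Polynomial

/-- The inclusion of the algebraic integers in the complex numbers. -/
noncomputable def inc : OO →+* ℂ := (integralClosure ℤ ℂ).val.toRingHom

lemma inc_apply (x : OO) : inc x = (x : ℂ) := rfl

lemma inc_aeval {r : ℕ} (X : Fin r → OO) (Q : MvPolynomial (Fin r) ℤ) :
    ((MvPolynomial.aeval X Q : OO) : ℂ) = MvPolynomial.aeval (fun i => (X i : ℂ)) Q := by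
  have h := MvPolynomial.eval₂_comp_left inc (algebraMap ℤ OO) X Q
  have h2 : inc.comp (algebraMap ℤ OO) = algebraMap ℤ ℂ := RingHom.ext_int _ _
  rw [h2] at h
  exact h

lemma inc_det {n r : ℕ} (P : Fin n × Fin r → MvPolynomial (Fin r) ℤ) (X : Fin n → Fin r → OO) :
    (((jac P X).det : OO) : ℂ) = (jac P fun t i => (X t i : ℂ)).det := by
  rw [← inc_apply, RingHom.map_det]
  congr 1
  ext a b
  exact inc_aeval (X b.1) (MvPolynomial.pderiv b.2 (P a))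

/-- A bound for finitely many polynomials. -/
lemma bdv_fin (bdv : BdvStmt) {ι : Type} [Fintype ι] (r : ℕ) (Q : ι → MvPolynomial (Fin r) ℤ)
    (D : ℕ) (hD : ∀ i, (Q i).totalDegree ≤ D) : ∃ C : ℝ, 1 ≤ C ∧ ∀ (R : ℝ) (X : Fin r → ℂ),
      1 ≤ R → (∀ i, ‖X i‖ ≤ R) → ∀ i, ‖MvPolynomial.aeval X (Q i)‖ ≤ C * R ^ D := by
  choose C hC using fun i => bdv r (Q i)
  refine ⟨1 + ∑ i, |C i|, ?_, ?_⟩
  · have : 0 ≤ ∑ i, |C i| := Finset.sum_nonneg fun i _ => abs_nonneg _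
    linarith
  · intro R X hR hX i
    have h1 := hC i R X hR hX
    have h2 : R ^ (Q i).totalDegree ≤ R ^ D := pow_le_pow_right₀ hR (hD i)
    have h3 : |C i| ≤ ∑ i, |C i| :=
      Finset.single_le_sum (f := fun i => |C i|) (fun i _ => abs_nonneg _) (Finset.mem_univ i)
    have h4 : 0 ≤ R ^ D := by positivity
    have h5 : 0 ≤ R ^ (Q i).totalDegree := by positivity
    calc ‖MvPolynomial.aeval X (Q i)‖ ≤ C i * R ^ (Q i).totalDegree := h1
      _ ≤ |C i| * R ^ (Q i).totalDegree := mul_le_mul_of_nonneg_right (le_abs_self _) h5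
      _ ≤ |C i| * R ^ D := mul_le_mul_of_nonneg_left h2 (abs_nonneg _)
      _ ≤ (1 + ∑ i, |C i|) * R ^ D := by
          apply mul_le_mul_of_nonneg_right _ h4
          linarith

/-- The bound for the determinant. -/
lemma det_bound {m : Type} [Fintype m] [DecidableEq m] (A : Matrix m m ℂ) (x : ℝ)
    (h : ∀ i j, ‖A i j‖ ≤ x) :
    ‖A.det‖ ≤ ((Fintype.card m).factorial : ℝ) * x ^ Fintype.card m := by
  have := Matrix.det_le (A := A) (abv := IsAbsoluteValue.toAbsoluteValue (norm : ℂ → ℝ)) (x := x)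
    (fun i j => h i j)
  rw [nsmul_eq_mul] at this
  exact this

/-- The indices of the residues. -/
lemma index (rsd : RsdStmt) (max : MaxStmt) (n p : ℕ) (hn : 0 < n) (hp : p.Prime) :
    ∃ M : Ideal OO, M.IsMaximal ∧ (∀ a : ℤ, (a : OO) ∈ M → (p : ℤ) ∣ a) ∧
      ∃ idx : OO → ℕ, (∀ x : OO, (∃ g : ℤ[X], g.Monic ∧ g.natDegree = n ∧ aeval x g = 0) →
        idx x < n * p ^ n) ∧
      ∀ x y : OO, (∃ g : ℤ[X], g.Monic ∧ g.natDegree = n ∧ aeval x g = 0) →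
        (∃ g : ℤ[X], g.Monic ∧ g.natDegree = n ∧ aeval y g = 0) → idx x = idx y → y - x ∈ M := by
  classical
  obtain ⟨M, hM, hpM, hZ⟩ := max p hp
  obtain ⟨hfin, hcard⟩ := rsd n p hn hp M hM hpM
  set S : Set (OO ⧸ M) := {y : OO ⧸ M | ∃ x : OO, Ideal.Quotient.mk M x = y ∧
    ∃ g : ℤ[X], g.Monic ∧ g.natDegree = n ∧ aeval x g = 0} with hS
  have := hfin.fintype
  let e : S ≃ Fin (Fintype.card S) := Fintype.equivFin S
  have hc : Fintype.card S ≤ n * p ^ n := by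
    rw [← Nat.card_eq_fintype_card]
    exact hcard
  refine ⟨M, hM, hZ, fun x => if h : Ideal.Quotient.mk M x ∈ S then (e ⟨_, h⟩ : ℕ) else 0, ?_, ?_⟩
  · intro x hx
    have h : Ideal.Quotient.mk M x ∈ S := ⟨x, rfl, hx⟩
    simp only [h, dif_pos]
    exact lt_of_lt_of_le (e ⟨_, h⟩).2 hc
  · intro x y hx hy hxy
    have h1 : Ideal.Quotient.mk M x ∈ S := ⟨x, rfl, hx⟩
    have h2 : Ideal.Quotient.mk M y ∈ S := ⟨y, rfl, hy⟩
    simp only [h1, h2, dif_pos] at hxy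
    have h3 : (⟨_, h1⟩ : S) = ⟨_, h2⟩ := e.injective (Fin.ext hxy)
    have h4 : Ideal.Quotient.mk M x = Ideal.Quotient.mk M y := congrArg Subtype.val h3
    exact (Ideal.Quotient.eq).1 h4.symm

/-- The numerical inequality of the count. -/
lemma numeric (n r d q m E L b : ℕ) (K K2 C3 B R ε ε' : ℝ) (hq : q = n * r)
    (hm : m = 1 + n * (n * r)) (hK : 0 ≤ K) (hK2 : 1 ≤ K2) (hC3 : 1 ≤ C3) (hR : 1 ≤ R)
    (hε' : 0 < ε') (hEm : (E : ℝ) * (ε' * m) ≤ ε) (hB : B = C3 * (K2 * R ^ E) ^ ε')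
    (hL : (L : ℝ) ≤ K * R ^ d) (hb : (b : ℝ) ≤ B) :
    (((b + 1) * ((2 * L + 1) ^ q * ((n * b ^ n) ^ r) ^ n) : ℕ) : ℝ) ≤
      (2 * (2 * K + 1) ^ q * ((n : ℝ) ^ r) ^ n * (C3 ^ m * K2 ^ (ε' * m))) *
        R ^ ((d : ℝ) * r * n + ε) := by
  have hR0 : 0 < R := by linarith
  have hRd : 1 ≤ R ^ d := one_le_pow₀ hR
  have hRE : 1 ≤ R ^ E := one_le_pow₀ hR
  have hKR : 1 ≤ K2 * R ^ E := by nlinarith
  have hpow : 1 ≤ (K2 * R ^ E) ^ ε' := Real.one_le_rpow hKR hε'.le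
  have hB1 : 1 ≤ B := by rw [hB]; nlinarith
  have hb0 : (0 : ℝ) ≤ b := Nat.cast_nonneg b
  have h1 : ((b : ℝ) + 1) ≤ 2 * B := by linarith
  have h2 : (2 * (L : ℝ) + 1) ^ q ≤ ((2 * K + 1) * R ^ d) ^ q := by
    apply pow_le_pow_left₀ (by positivity)
    nlinarith
  have h3 : (((n : ℝ) * (b : ℝ) ^ n) ^ r) ^ n ≤ (((n : ℝ) * B ^ n) ^ r) ^ n := by
    apply pow_le_pow_left₀ (by positivity)
    apply pow_le_pow_left₀ (by positivity)
    apply mul_le_mul_of_nonneg_left _ (Nat.cast_nonneg n)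
    exact pow_le_pow_left₀ hb0 hb n
  have h4 : (((b + 1) * ((2 * L + 1) ^ q * ((n * b ^ n) ^ r) ^ n) : ℕ) : ℝ) ≤
      (2 * B) * (((2 * K + 1) * R ^ d) ^ q * (((n : ℝ) * B ^ n) ^ r) ^ n) := by
    push_cast
    apply mul_le_mul h1 _ (by positivity) (by linarith)
    exact mul_le_mul h2 h3 (by positivity) (by positivity)
  refine h4.trans ?_
  have h5 : (2 * B) * (((2 * K + 1) * R ^ d) ^ q * (((n : ℝ) * B ^ n) ^ r) ^ n) =
      (2 * (2 * K + 1) ^ q * ((n : ℝ) ^ r) ^ n * B ^ m) * R ^ (d * q) := by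
    rw [hm, mul_pow (2 * K + 1) (R ^ d) q, ← pow_mul R d q]
    ring
  rw [h5]
  have h6 : B ^ m = C3 ^ m * K2 ^ (ε' * m) * R ^ ((E : ℝ) * (ε' * m)) := by
    rw [hB, mul_pow, ← Real.rpow_natCast ((K2 * R ^ E) ^ ε') m,
      ← Real.rpow_mul (by positivity), Real.mul_rpow (by positivity) (by positivity),
      ← Real.rpow_natCast R E, ← Real.rpow_mul hR0.le, mul_assoc]
  have h7 : R ^ ((E : ℝ) * (ε' * m)) ≤ R ^ ε := Real.rpow_le_rpow_of_exponent_le hR hEm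
  have h8 : R ^ (d * q) = R ^ ((d : ℝ) * r * n) := by
    rw [← Real.rpow_natCast]
    congr 1
    rw [hq]
    push_cast
    ring
  rw [h6, h8, Real.rpow_add hR0]
  have h9 : 0 ≤ 2 * (2 * K + 1) ^ q * ((n : ℝ) ^ r) ^ n := by positivity
  have h10 : 0 ≤ C3 ^ m * K2 ^ (ε' * m) := by positivity
  have h11 : 0 ≤ R ^ ((d : ℝ) * r * n) := by positivity
  calc 2 * (2 * K + 1) ^ q * ((n : ℝ) ^ r) ^ n * (C3 ^ m * K2 ^ (ε' * m) *
        R ^ ((E : ℝ) * (ε' * m))) * R ^ ((d : ℝ) * r * n)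
      = (2 * (2 * K + 1) ^ q * ((n : ℝ) ^ r) ^ n * (C3 ^ m * K2 ^ (ε' * m)) *
        R ^ ((d : ℝ) * r * n)) * R ^ ((E : ℝ) * (ε' * m)) := by ring
    _ ≤ (2 * (2 * K + 1) ^ q * ((n : ℝ) ^ r) ^ n * (C3 ^ m * K2 ^ (ε' * m)) *
        R ^ ((d : ℝ) * r * n)) * R ^ ε := by
        apply mul_le_mul_of_nonneg_left h7
        positivity
    _ = _ := by ring

/-- CNT: the number of systems. -/
theorem cnt (bdv : BdvStmt) (hen : HenStmt) (rsd : RsdStmt) (prm : PrmStmt) (mx : MaxStmt) :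
    CntStmt := by
  classical
  intro n r d P hn hd ε hε
  obtain ⟨C1, hC1, hB1⟩ := bdv_fin bdv r P d hd
  set D : ℕ := ∑ ab : (Fin n × Fin r) × Fin r, (MvPolynomial.pderiv ab.2 (P ab.1)).totalDegree
    with hD
  obtain ⟨C2, hC2, hB2⟩ := bdv_fin bdv r
    (fun ab : (Fin n × Fin r) × Fin r => MvPolynomial.pderiv ab.2 (P ab.1)) D
    (fun ab => Finset.single_le_sum
      (f := fun ab : (Fin n × Fin r) × Fin r => (MvPolynomial.pderiv ab.2 (P ab.1)).totalDegree)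
      (fun i _ => Nat.zero_le _) (Finset.mem_univ ab))
  obtain ⟨q, hq⟩ : ∃ q : ℕ, q = Fintype.card (Fin n × Fin r) := ⟨_, rfl⟩
  have hq' : q = n * r := by rw [hq]; simp
  obtain ⟨K2, hK2⟩ : ∃ K2 : ℝ, K2 = ((q.factorial : ℝ) * C2 ^ q) ^ 2 := ⟨_, rfl⟩
  obtain ⟨E, hE⟩ : ∃ E : ℕ, E = D * q * 2 := ⟨_, rfl⟩
  obtain ⟨m, hm⟩ : ∃ m : ℕ, m = 1 + n * (n * r) := ⟨_, rfl⟩
  obtain ⟨ε', hε'⟩ : ∃ ε' : ℝ, ε' = ε / ((E + 1) * m) := ⟨_, rfl⟩
  have hm0 : (0 : ℝ) < m := by rw [hm]; positivity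
  have hE0 : (0 : ℝ) < (E : ℝ) + 1 := by positivity
  have hε'0 : 0 < ε' := by rw [hε']; positivity
  have hEm : (E : ℝ) * (ε' * m) ≤ ε := by
    have h1 : (E : ℝ) * (ε' * m) = ε * ((E : ℝ) / (E + 1)) := by
      rw [hε']
      field_simp
    have h2 : (E : ℝ) / (E + 1) ≤ 1 := by
      rw [div_le_one hE0]
      linarith
    rw [h1]
    nlinarith
  have hfac : (1 : ℝ) ≤ q.factorial := by exact_mod_cast Nat.succ_le_of_lt (Nat.factorial_pos q)
  have hC2q : 1 ≤ C2 ^ q := one_le_pow₀ hC2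
  have hK2' : 1 ≤ K2 := by
    rw [hK2]
    apply one_le_pow₀
    nlinarith
  obtain ⟨C0, hC0⟩ := prm ε' hε'0
  obtain ⟨C3, hC3⟩ : ∃ C3 : ℝ, C3 = max C0 1 := ⟨_, rfl⟩
  have hC31 : 1 ≤ C3 := by rw [hC3]; exact le_max_right _ _
  have hC30 : C0 ≤ C3 := by rw [hC3]; exact le_max_left _ _
  obtain ⟨K, hK⟩ : ∃ K : ℝ, K = n * C1 := ⟨_, rfl⟩
  have hK0 : 0 ≤ K := by rw [hK]; positivity
  refine ⟨2 * (2 * K + 1) ^ q * ((n : ℝ) ^ r) ^ n * (C3 ^ m * K2 ^ (ε' * m)), ?_⟩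
  intro R hR
  obtain ⟨B, hB⟩ : ∃ B : ℝ, B = C3 * (K2 * R ^ E) ^ ε' := ⟨_, rfl⟩
  have hR0 : 0 < R := by linarith
  have hB0 : 0 ≤ B := by rw [hB]; positivity
  -- the choice of the prime number
  have key : ∀ X : Fin n → Fin r → OO, ∃ (p : ℕ) (T : Fin n × Fin r → ℤ), X ∈ XS n r P R →
      p.Prime ∧ p ≤ ⌊B⌋₊ ∧ (∀ a, ∑ t, MvPolynomial.aeval (X t) (P a) = (T a : OO)) ∧
      (∀ a, T a ∈ Finset.Icc (-(⌊K * R ^ d⌋₊ : ℤ)) (⌊K * R ^ d⌋₊ : ℤ)) ∧
      ∃ T2 : ℤ, (jac P X).det ^ 2 = (T2 : OO) ∧ ¬ (p : ℤ) ∣ T2 := by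
    intro X
    by_cases hX : X ∈ XS n r P R
    swap
    · exact ⟨0, 0, fun h => absurd h hX⟩
    obtain ⟨hXR, hXg, hXS, hdet, T2, hT2⟩ := hX
    choose T hT using hXS
    -- bound for the power sums
    have hTb : ∀ a, |(T a : ℝ)| ≤ K * R ^ d := by
      intro a
      have h1 : (T a : ℂ) = ∑ t, MvPolynomial.aeval (fun i => (X t i : ℂ)) (P a) := by
        have h2 := congrArg inc (hT a)
        rw [map_sum, map_intCast] at h2
        rw [← h2]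
        exact Finset.sum_congr rfl fun t _ => inc_aeval (X t) (P a)
      have h3 : |(T a : ℝ)| = ‖(T a : ℂ)‖ := by
        rw [Complex.norm_intCast]
      rw [h3, h1]
      calc ‖∑ t, MvPolynomial.aeval (fun i => (X t i : ℂ)) (P a)‖
          ≤ ∑ t : Fin n, ‖MvPolynomial.aeval (fun i => (X t i : ℂ)) (P a)‖ := norm_sum_le _ _
        _ ≤ ∑ _t : Fin n, C1 * R ^ d :=
            Finset.sum_le_sum fun t _ => hB1 R _ hR (fun i => hXR t i) a
        _ = K * R ^ d := by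
            rw [Finset.sum_const, Finset.card_univ, Fintype.card_fin, nsmul_eq_mul, hK, mul_assoc]
    -- bound for the determinant
    have hT20 : T2 ≠ 0 := by
      intro h
      rw [h, Int.cast_zero] at hT2
      exact hdet (pow_eq_zero_iff (two_ne_zero) |>.1 hT2)
    have hT2b : (T2.natAbs : ℝ) ≤ K2 * R ^ E := by
      have h1 : ((jac P fun t i => (X t i : ℂ)).det) ^ 2 = (T2 : ℂ) := by
        have h2 := congrArg inc hT2
        rw [map_pow, map_intCast, inc_apply, inc_det] at h2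
        exact h2
      have h3 : (T2.natAbs : ℝ) = ‖(T2 : ℂ)‖ := by
        rw [Complex.norm_intCast, Nat.cast_natAbs, Int.cast_abs]
      rw [h3, ← h1, norm_pow]
      have h4 : ‖(jac P fun t i => (X t i : ℂ)).det‖ ≤
          ((Fintype.card (Fin n × Fin r)).factorial : ℝ) *
            (C2 * R ^ D) ^ Fintype.card (Fin n × Fin r) := by
        apply det_bound
        intro a b
        exact hB2 R _ hR (fun i => hXR b.1 i) (a, b.2)
      rw [← hq] at h4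
      calc ‖(jac P fun t i => (X t i : ℂ)).det‖ ^ 2 ≤
          ((q.factorial : ℝ) * (C2 * R ^ D) ^ q) ^ 2 := pow_le_pow_left₀ (norm_nonneg _) h4 2
        _ = K2 * R ^ E := by
            rw [hK2, hE, mul_pow C2, ← pow_mul, pow_mul R (D * q) 2]
            ring
    obtain ⟨p, hp, hpN, hpB⟩ := hC0 T2.natAbs (Int.natAbs_ne_zero.2 hT20)
    refine ⟨p, T, fun _ => ⟨hp, ?_, hT, ?_, T2, hT2, ?_⟩⟩
    · apply Nat.le_floor
      rw [hB]
      have h1 : ((T2.natAbs : ℕ) : ℝ) ^ ε' ≤ (K2 * R ^ E) ^ ε' :=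
        Real.rpow_le_rpow (Nat.cast_nonneg _) hT2b hε'0.le
      have h2 : (0 : ℝ) ≤ ((T2.natAbs : ℕ) : ℝ) ^ ε' := by positivity
      calc (p : ℝ) ≤ C0 * ((T2.natAbs : ℕ) : ℝ) ^ ε' := hpB
        _ ≤ C3 * ((T2.natAbs : ℕ) : ℝ) ^ ε' := mul_le_mul_of_nonneg_right hC30 h2
        _ ≤ C3 * (K2 * R ^ E) ^ ε' := mul_le_mul_of_nonneg_left h1 (by linarith)
    · intro a
      rw [Finset.mem_Icc, ← abs_le]
      have h1 : ((T a).natAbs : ℝ) ≤ K * R ^ d := by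
        have h2 := hTb a
        rw [Nat.cast_natAbs, Int.cast_abs]
        exact h2
      have h3 : (T a).natAbs ≤ ⌊K * R ^ d⌋₊ := Nat.le_floor h1
      have h4 : |T a| = ((T a).natAbs : ℤ) := Int.abs_eq_natAbs (T a)
      rw [h4]
      exact_mod_cast h3
    · intro h
      exact hpN (Int.natCast_dvd.1 h)
  choose pX TX hgood using key
  have idxs : ∀ p : ℕ, ∃ (M : Ideal OO) (idx : OO → ℕ), p.Prime → M.IsMaximal ∧
      (∀ a : ℤ, (a : OO) ∈ M → (p : ℤ) ∣ a) ∧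
      (∀ x : OO, (∃ g : ℤ[X], g.Monic ∧ g.natDegree = n ∧ aeval x g = 0) →
        idx x < n * p ^ n) ∧
      ∀ x y : OO, (∃ g : ℤ[X], g.Monic ∧ g.natDegree = n ∧ aeval x g = 0) →
        (∃ g : ℤ[X], g.Monic ∧ g.natDegree = n ∧ aeval y g = 0) → idx x = idx y → y - x ∈ M := by
    intro p
    by_cases hp : p.Prime
    · obtain ⟨M, hM, hZ, idx, h1, h2⟩ := index rsd mx n p hn hp
      exact ⟨M, idx, fun _ => ⟨hM, hZ, h1, h2⟩⟩
    · exact ⟨⊥, fun _ => 0, fun h => absurd h hp⟩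
  choose MM idx hidx using idxs
  let f : (Fin n → Fin r → OO) → ℕ × (Fin n × Fin r → ℤ) × (Fin n → Fin r → ℕ) :=
    fun X => (pX X, TX X, fun t i => idx (pX X) (X t i))
  let tgt : Finset (ℕ × (Fin n × Fin r → ℤ) × (Fin n → Fin r → ℕ)) :=
    Finset.range (⌊B⌋₊ + 1) ×ˢ
      (Fintype.piFinset (fun _ : Fin n × Fin r =>
        Finset.Icc (-(⌊K * R ^ d⌋₊ : ℤ)) (⌊K * R ^ d⌋₊ : ℤ)) ×ˢ
      Fintype.piFinset (fun _ : Fin n => Fintype.piFinset (fun _ : Fin r =>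
        Finset.range (n * ⌊B⌋₊ ^ n))))
  have hmaps : ∀ X ∈ XS n r P R, f X ∈ (tgt : Set _) := by
    intro X hX
    obtain ⟨hp, hpB, hT, hTb, -⟩ := hgood X hX
    obtain ⟨-, -, h1, -⟩ := hidx (pX X) hp
    simp only [f, tgt, Finset.coe_product, Set.mem_prod, Finset.mem_coe, Finset.mem_range,
      Fintype.mem_piFinset]
    refine ⟨by omega, hTb, fun t i => ?_⟩
    refine lt_of_lt_of_le (h1 (X t i) (hX.2.1 t i)) ?_
    exact Nat.mul_le_mul_left _ (Nat.pow_le_pow_left hpB n)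
  have hinj : Set.InjOn f (XS n r P R) := by
    intro X hX Y hY hXY
    simp only [f, Prod.mk.injEq] at hXY
    obtain ⟨h1, h2, h3⟩ := hXY
    obtain ⟨hp, -, hT, -, T2, hT2, hpT⟩ := hgood X hX
    obtain ⟨-, -, hTY, -⟩ := hgood Y hY
    obtain ⟨hM, hZ, -, h4⟩ := hidx (pX X) hp
    have h5 : Y = X := by
      refine hen n r P OO (MM (pX X)) hM.isPrime X Y ?_ ?_ ?_
      · intro t i
        apply h4 (X t i) (Y t i) (hX.2.1 t i) (hY.2.1 t i)
        have := congrFun (congrFun h3 t) i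
        rw [← h1] at this
        exact this
      · intro h
        have h6 : (jac P X).det ^ 2 ∈ MM (pX X) := Ideal.pow_mem_of_mem _ h 2 (by norm_num)
        rw [hT2] at h6
        exact hpT (hZ T2 h6)
      · intro a
        have h6 := hTY a
        have h7 := hT a
        rw [← h2, ← h7] at h6
        exact h6
    exact h5.symm
  have hfin : (XS n r P R).Finite :=
    Set.Finite.of_finite_image ((tgt.finite_toSet).subset (Set.image_subset_iff.2 hmaps)) hinj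
  refine ⟨hfin, ?_⟩
  have hcard : (XS n r P R).ncard ≤ tgt.card := by
    rw [← Set.ncard_coe_finset]
    exact Set.ncard_le_ncard_of_injOn f hmaps hinj tgt.finite_toSet
  have htgt : tgt.card = (⌊B⌋₊ + 1) * ((2 * ⌊K * R ^ d⌋₊ + 1) ^ q *
      ((n * ⌊B⌋₊ ^ n) ^ r) ^ n) := by
    simp only [tgt, Finset.card_product, Finset.card_range, Fintype.card_piFinset,
      Finset.prod_const, Finset.card_univ, Fintype.card_fin, Int.card_Icc, hq]
    congr 3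
    omega
  calc ((XS n r P R).ncard : ℝ) ≤ (tgt.card : ℝ) := by exact_mod_cast hcard
    _ = (((⌊B⌋₊ + 1) * ((2 * ⌊K * R ^ d⌋₊ + 1) ^ q * ((n * ⌊B⌋₊ ^ n) ^ r) ^ n) : ℕ) : ℝ) := by
        rw [htgt]
    _ ≤ _ := numeric n r d q m E _ _ K K2 C3 B R ε ε' hq' hm hK0 hK2' hC31 hR hε'0 hEm hB
        (Nat.floor_le (by positivity)) (Nat.floor_le hB0)

end Pool.Agent.THX.H10
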